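import Mathlib

set_option autoImplicit false

namespace Pool.Agent.Results.MP_b6f08f_co.Unbounded

open Finset

/-- Points of `{0,1}^(s w)`, with coordinates grouped into `s` blocks of size `w`. -/
abbrev Cube (s w : ℕ) := Fin s → Fin w → Bool

variable {s w : ℕ}

/-- Hamming distance. -/
def d (x y : Cube s w) : ℕ := #{p : Fin s × Fin w | x p.1 p.2 ≠ y p.1 p.2}

/-- `W₁`: least expected Hamming distance over all couplings. -/
noncomputable def W1 (μ ν : Cube s w → ℝ) : ℝ :=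
  sInf {c | ∃ q : Cube s w → Cube s w → ℝ, (∀ x y, 0 ≤ q x y) ∧ (∀ x, ∑ y, q x y = μ x) ∧
    (∀ y, ∑ x, q x y = ν y) ∧ c = ∑ x, ∑ y, (d x y : ℝ) * q x y}

/-- Uniform probability measure on a finite set. -/
noncomputable def unif (S : Finset (Cube s w)) (x : Cube s w) : ℝ :=
  if x ∈ S then 1 / #S else 0

/-- The set where the tribes function equals `1`. -/
def A (s w : ℕ) : Finset (Cube s w) := {x | ∃ i, ∀ j, x i j = true}

def g (a : Fin w → Bool) : ℝ := ∑ j, if a j then 1 else -1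

lemma sum_neg {X : Type} [Fintype X] (e : X ≃ X) (f : X → ℝ) (h : ∀ x, f (e x) = -f x) :
    ∑ x, f x = 0 := by
  have := e.sum_comp f
  simp only [h, sum_neg_distrib] at this
  linarith

def flip (w : ℕ) : (Fin w → Bool) ≃ (Fin w → Bool) :=
  Equiv.piCongrRight fun _ => Equiv.boolNot

lemma g_flip (a : Fin w → Bool) : g (flip w a) = -g a := by
  simp only [g, ← sum_neg_distrib]
  exact sum_congr rfl fun j _ => by cases h : a j <;> simp [flip, h]

lemma lip (x y : Cube s w) : ∑ i, g (y i) - ∑ i, g (x i) ≤ 2 * d x y := by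
  simp only [g, d, card_filter, Nat.cast_sum, mul_sum, ← sum_sub_distrib, Fintype.sum_prod_type]
  refine sum_le_sum fun i _ => sum_le_sum fun j _ => ?_
  cases x i j <;> cases y i j <;> norm_num

lemma sum_unif (S : Finset (Cube s w)) (f : Cube s w → ℝ) :
    ∑ x, f x * unif S x = (∑ x ∈ S, f x) / #S := by
  simp [unif, sum_div, div_eq_mul_inv, sum_mul]

lemma bound (hs : 2 ^ w ≤ 2 * s) (hw : 1 ≤ w) : (w : ℝ) / 4 ≤ W1 (unif (A s w)ᶜ) (unif (A s w)) := by
  have hs0 : 0 < s := by have := Nat.two_pow_pos w; omega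
  set B : Finset (Fin w → Bool) := univ.erase fun _ => true with hB
  have hZ : (A s w)ᶜ = Fintype.piFinset fun _ => B := by
    ext x
    simp [A, hB, funext_iff]
  have hgB : ∑ a ∈ B, g a = -w := by
    have := add_sum_erase univ (g (w := w)) (mem_univ fun _ => true)
    rw [sum_neg (flip w) g g_flip] at this
    simp only [g, if_true, sum_const, card_univ, Fintype.card_fin, nsmul_eq_mul, mul_one] at this ⊢
    linarith
  have hcB : #B + 1 = 2 ^ w := by rw [hB, card_erase_add_one (mem_univ _)]; simp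
  have hB0 : (0 : ℝ) < #B := by
    have := Nat.one_lt_two_pow (n := w) (by omega)
    exact_mod_cast (by omega : 0 < #B)
  have h1 : ∑ x ∈ (A s w)ᶜ, ∑ i, g (x i) = -(s * w * (#B : ℝ) ^ (s - 1)) := by
    rw [hZ, sum_comm]
    have : ∀ i, ∑ x ∈ Fintype.piFinset fun _ : Fin s => B, g (x i) = -w * (#B : ℝ) ^ (s - 1) :=
      fun i => by
        have h := prod_univ_sum (fun _ : Fin s => B) fun j a => if j = i then g a else 1
        simp only [prod_ite_eq', mem_univ, if_true] at h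
        rw [← h, ← mul_prod_erase _ _ (mem_univ i), prod_congr rfl (g := fun _ => (#B : ℝ))
          fun j hj => by simp [ne_of_mem_erase hj]]
        simp [hgB]
    simp [this, mul_assoc]
  have h2 : ∑ x ∈ A s w, ∑ i, g (x i) = s * w * (#B : ℝ) ^ (s - 1) := by
    have := sum_add_sum_compl (A s w) fun x => ∑ i, g (x i)
    rw [sum_neg (Equiv.piCongrRight fun _ => flip w) _ fun x => by simp [g_flip], h1] at this
    linarith
  have hcZ : (#(A s w)ᶜ : ℝ) = #B * (#B : ℝ) ^ (s - 1) := by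
    rw [hZ, ← pow_succ', Nat.sub_add_cancel hs0]
    simp
  have hcA : (0 : ℝ) < #(A s w) :=
    by exact_mod_cast card_pos.2 ⟨fun _ _ => true, by simpa [A] using ⟨⟨0, hs0⟩⟩⟩
  have t0 : ∑ x, unif (A s w)ᶜ x = 1 := by
    simpa [show (#(A s w)ᶜ : ℝ) ≠ 0 by rw [hcZ]; positivity] using sum_unif (A s w)ᶜ fun _ => 1
  have t1 : ∑ x, unif (A s w) x = 1 := by simpa [hcA.ne'] using sum_unif (A s w) fun _ => 1
  have hu : ∀ (S : Finset (Cube s w)) x, 0 ≤ unif S x := fun S x => by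
    unfold unif
    positivity
  refine le_csInf ⟨_, fun x y => unif (A s w)ᶜ x * unif (A s w) y,
    fun x y => mul_nonneg (hu _ _) (hu _ _), fun x => by rw [← mul_sum, t1, mul_one],
    fun y => by rw [← sum_mul, t0, one_mul], rfl⟩ ?_
  rintro _ ⟨q, hq, hx, hy, rfl⟩
  have h3 : ∑ x, ∑ y, (∑ i, g (y i) - ∑ i, g (x i)) * q x y ≤
      2 * ∑ x, ∑ y, (d x y : ℝ) * q x y := by
    simp only [mul_sum _ _ (2 : ℝ), ← mul_assoc]
    exact sum_le_sum fun x _ => sum_le_sum fun y _ =>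
      mul_le_mul_of_nonneg_right (lip x y) (hq x y)
  simp only [sub_mul, sum_sub_distrib] at h3
  rw [sum_comm] at h3
  simp only [← mul_sum, hx, hy, sum_unif, h1, h2, hcZ] at h3
  have h4 : 0 ≤ s * w * (#B : ℝ) ^ (s - 1) / #(A s w) := by positivity
  have h5 : -(s * w * (#B : ℝ) ^ (s - 1)) / (#B * (#B : ℝ) ^ (s - 1)) = -(w * (s / #B)) := by
    field_simp
  have h6 : (1 : ℝ) / 2 ≤ s / #B := by
    rw [div_le_div_iff₀ two_pos hB0]
    exact_mod_cast (by omega : 1 * #B ≤ s * 2)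
  rw [h5] at h3
  nlinarith [mul_le_mul_of_nonneg_left h6 (Nat.cast_nonneg (α := ℝ) w)]

theorem result (w s : ℕ) (hw : 1 ≤ w)
    (hs : IsGreatest {t : ℕ | 1 - (1 - 1 / 2 ^ w : ℝ) ^ t ≤ 1 / 2} s) :
    (w : ℝ) / 4 ≤ W1 (unif (A s w)ᶜ) (unif (A s w)) := by
  refine bound ?_ hw
  have h1 : ¬ (1 - (1 - 1 / 2 ^ w : ℝ) ^ (s + 1) ≤ 1 / 2) := fun h => by
    have := hs.2 h
    omega
  have h2 : (0 : ℝ) < 2 ^ w := by positivity
  have h3 := one_add_mul_le_pow (a := -(1 / 2 ^ w : ℝ)) (by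
    have : (1 / 2 ^ w : ℝ) ≤ 1 := by
      rw [div_le_one h2]
      exact one_le_pow₀ one_le_two
    linarith) (s + 1)
  have h4 : (1 : ℝ) / 2 < ((s + 1 : ℕ) : ℝ) / 2 ^ w := by
    rw [← sub_eq_add_neg] at h3
    rw [div_eq_mul_one_div ((s + 1 : ℕ) : ℝ)]
    linarith
  rw [div_lt_div_iff₀ two_pos h2] at h4
  have h5 : 1 * 2 ^ w < (s + 1) * 2 := by exact_mod_cast h4
  obtain ⟨v, rfl⟩ := Nat.exists_eq_add_of_le' hw
  rw [pow_succ] at *
  omega

end Pool.Agent.Results.MP_b6f08f_co.Unbounded
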